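import Mathlib
import Pool.Agent.H63WH.Lsd

set_option autoImplicit false

/-!
# Finite weak hyperbolic dimension: all colours but two with a uniform doubling constant

If at every scale `r` all colours of a decomposition of `X` but two consist of `(N, R)`-large scale
doubling pieces with `N` independent of `r` (the other two colours may have doubling constants which
depend on `r`), then `X` has finite decomposition complexity.
-/

namespace Pool.Agent.Results.MP_1c101a_gt.AllButTwo

open H63WH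

theorem result {X : Type*} [MetricSpace X] (F : Set (Set X)) (m N : ℕ)
    (h : ∀ r : ℝ, 0 < r → ∃ Y Z : Set (Set X),
      ((∃ N' : ℕ, ∃ R' : ℝ, 0 < R' ∧ LSD N' R' Y) ∨ FDC Y) ∧
      ((∃ R : ℝ, 0 < R ∧ LSD N R Z) ∨ ADim N Z) ∧
      ∀ A ∈ F, ∃ B : Fin 2 → Set X, ∃ C : Fin m → Set X, A = (⋃ k, B k) ∪ (⋃ k, C k) ∧
        (∀ k, RDisj r Y (B k)) ∧ ∀ k, RDisj r Z (C k)) :
    FDC F := by
  refine fdc_of_qq (m * N ^ 3) F (qq_of_adim fun r hr => ?_)
  obtain ⟨Y, Z, hY, hZ, hdec⟩ := h r hr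
  refine ⟨Y, Z, ?_, ?_, hdec⟩
  · rcases hY with ⟨N', R', hR', hY⟩ | hY
    · exact fdc_lsd hR' hY
    · exact hY
  · rcases hZ with ⟨R, hR, hZ⟩ | hZ
    · exact adim_of_lsd hR hZ
    · exact hZ.mono (Nat.le_self_pow (by norm_num) N)

end Pool.Agent.Results.MP_1c101a_gt.AllButTwo
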