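import Mathlib
import Pool.Agent.H63LB.Upper
import Pool.Agent.H63LB.Lower
import Pool.Agent.Results.MP_1c101a_gt.AllButTwo

set_option autoImplicit false

/-!
# Weak hyperbolic dimension two: the first decomposition step cannot end in finite
asymptotic dimension

There is a metric space of weak hyperbolic dimension exactly two, with finite decomposition
complexity, which at no scale `r > 1` is a union of two `r`-disjoint unions of subspaces lying in
a family of finite asymptotic dimension.
-/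

namespace Pool.Agent.Results.MP_1c101a_gt.FirstStep

open Set H63WH H63LB

theorem result : ∃ (X : Type) (_ : MetricSpace X),
    (∀ r : ℝ, 0 < r → ∃ Y : Set (Set X), (∃ N : ℕ, 1 ≤ N ∧ ∃ R : ℝ, 0 < R ∧ LSD N R Y) ∧
      ∃ B : Fin 3 → Set X, (Set.univ : Set X) = (⋃ k, B k) ∧ ∀ k, RDisj r Y (B k)) ∧
    FDC ({Set.univ} : Set (Set X)) ∧
    ∀ (r : ℝ) (M : ℕ) (Y : Set (Set X)), 1 < r →
      ((∃ R : ℝ, 0 < R ∧ LSD M R Y) ∨ ADim M Y) → ¬ Dec r {Set.univ} Y := by
  refine ⟨Pt, inferInstance, ?_, ?_, ?_⟩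
  · intro r hr
    obtain ⟨s, hs⟩ := exists_nat_ge r
    have hs0 : 0 < s := by
      rcases Nat.eq_zero_or_pos s with h | h
      · rw [h] at hs
        push_cast at hs
        linarith
      · exact h
    refine ⟨Fm Pt (Fin (8 * s) × Fin (8 * s)) (8 * s : ℕ), ⟨_, Nat.one_le_pow _ _ (by norm_num),
      ((8 * s : ℕ) : ℝ) + 1, by positivity, lsd_fm _ (by positivity)⟩, ![B0 s, B1 s, B2 s], ?_, ?_⟩
    · symm
      rw [eq_univ_iff_forall]
      intro p
      rw [mem_iUnion]
      rcases cover s hs0 p with h | h | h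
      · exact ⟨0, h⟩
      · exact ⟨1, h⟩
      · exact ⟨2, h⟩
    · intro k
      fin_cases k
      · exact (rdisj0 hs0).mono_r hs
      · refine ((rdisj1' hs0).mono_r hs)
      · exact (rdisj2 hs0).mono_r hs
  · refine AllButTwo.result {univ} 1 (8 ^ 2) fun r hr => ?_
    obtain ⟨s, hs⟩ := exists_nat_ge r
    have hs0 : 0 < s := by
      rcases Nat.eq_zero_or_pos s with h | h
      · rw [h] at hs
        push_cast at hs
        linarith
      · exact h
    refine ⟨Fm Pt (Fin (8 * s) × Fin (8 * s)) (8 * s : ℕ), Fm Pt (Fin 2) (4 * s : ℕ),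
      Or.inl ⟨_, ((8 * s : ℕ) : ℝ) + 1, by positivity, lsd_fm _ (by positivity)⟩,
      Or.inl ⟨((4 * s : ℕ) : ℝ) + 1, by positivity, ?_⟩, ?_⟩
    · have := lsd_fm (X := Pt) (Fin 2) (c := ((4 * s : ℕ) : ℝ)) (by positivity)
      rwa [Fintype.card_fin] at this
    · intro A hA
      rw [mem_singleton_iff] at hA
      subst hA
      refine ⟨![B0 s, B2 s], ![B1 s], ?_, ?_, ?_⟩
      · symm
        rw [eq_univ_iff_forall]
        intro p
        rcases cover s hs0 p with h | h | h
        · exact Or.inl (mem_iUnion.2 ⟨0, h⟩)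
        · exact Or.inr (mem_iUnion.2 ⟨0, h⟩)
        · exact Or.inl (mem_iUnion.2 ⟨1, h⟩)
      · intro k
        fin_cases k
        · exact (rdisj0 hs0).mono_r hs
        · exact (rdisj2 hs0).mono_r hs
      · intro k
        fin_cases k
        exact (rdisj1 hs0).mono_r hs
  · rintro r M Y hr (⟨R, hR, hY⟩ | hY)
    · exact lower hr (adim_of_lsd hR hY)
    · exact lower hr hY

end Pool.Agent.Results.MP_1c101a_gt.FirstStep
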